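import Pool.Agent.Helper89.PQ.CDLa
import Pool.Agent.Helper94.PQ.StmtsC
import Pool.Agent.Helper64.BKS.EX

/-!
# CDL: the conductor does not depend on the prime and on the extension
-/

set_option autoImplicit false

open NumberField
open scoped Classical

namespace PQ89

open PQ Pool.Agent.Helper13.Swan
open BKA (Gal Zb Pl q Over Congr vec)

section up

variable {F : Type} [Field F] [NumberField F]

theorem rk_zero {Ω P : Type} [Field Ω] [Group P] [MulSemiringAction P Ω]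
    {w : Valuation Ω (WithZero (Multiplicative ℤ))} {π : Ω} (hB : Base P w π) :
    Rk hB 0 = ⊤ := by
  rw [eq_top_iff]
  intro g _
  rw [mem_Rk]
  exact hB.val_pi_sub_le g

/-- the restriction map of the inertia groups -/
theorem exists_res (grp : ST_GRP) (sur : ST_SUR) (v : Pl F) (𝔓 : Ideal (Zb F)) (h𝔓 : Over v 𝔓)
    (L₁ L : IntermediateField F (AlgebraicClosure F)) (hle : L₁ ≤ L)
    (fd₁ : FiniteDimensional F L₁) (nm₁ : Normal F L₁) (fd : FiniteDimensional F L)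
    (nm : Normal F L) :
    ∃ res : Inr L 𝔓 →* Inr L₁ 𝔓, Function.Surjective res ∧
      (∀ (g : Inr L 𝔓) (x : L₁), IntermediateField.inclusion hle (res g • x) =
        g • IntermediateField.inclusion hle x) ∧
      ∀ (g : Inr L 𝔓) (g₁ : Inr L₁ 𝔓) (σ : Gal F), On L σ (g : L ≃ₐ[F] L) →
        On L₁ σ (g₁ : L₁ ≃ₐ[F] L₁) → res g = g₁ := by
  obtain ⟨-, -, -, -, -, -, g7, -⟩ := grp F v 𝔓 h𝔓
  have hinj : Function.Injective (IntermediateField.inclusion hle) :=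
    IntermediateField.inclusion_injective hle
  have key : ∀ (g : Inr L 𝔓) (g₁ : Inr L₁ 𝔓) (σ : Gal F), On L σ (g : L ≃ₐ[F] L) →
      On L₁ σ (g₁ : L₁ ≃ₐ[F] L₁) → ∀ x : L₁, IntermediateField.inclusion hle (g₁ • x) =
        g • IntermediateField.inclusion hle x := by
    intro g g₁ σ h h₁ x
    apply Subtype.ext
    have e1 : σ ((IntermediateField.inclusion hle x : L) : AlgebraicClosure F) =
        (((g : L ≃ₐ[F] L) (IntermediateField.inclusion hle x) : L) : AlgebraicClosure F) := h _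
    have e2 : σ (x : AlgebraicClosure F) =
        (((g₁ : L₁ ≃ₐ[F] L₁) x : L₁) : AlgebraicClosure F) := h₁ x
    exact e2.symm.trans e1
  have uniq : ∀ g₁ g₂ : Inr L₁ 𝔓, (∀ x : L₁, IntermediateField.inclusion hle (g₁ • x) =
      IntermediateField.inclusion hle (g₂ • x)) → g₁ = g₂ := by
    intro g₁ g₂ h
    apply Subtype.ext
    apply AlgEquiv.ext
    intro x
    exact hinj (h x)
  have ex : ∀ g : Inr L 𝔓, ∃ g₁ : Inr L₁ 𝔓, ∀ x : L₁,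
      IntermediateField.inclusion hle (g₁ • x) = g • IntermediateField.inclusion hle x := by
    intro g
    obtain ⟨σ, hσ, hon⟩ := sur F v 𝔓 h𝔓 L fd nm g g.2
    obtain ⟨g₁, hg₁, hon₁⟩ := g7 L₁ nm₁ σ hσ
    exact ⟨⟨g₁, hg₁⟩, key g ⟨g₁, hg₁⟩ σ hon hon₁⟩
  choose f hf using ex
  have hmul : ∀ a b, f (a * b) = f a * f b := by
    intro a b
    apply uniq
    intro x
    rw [hf, mul_smul, mul_smul, hf, hf]
  refine ⟨MonoidHom.mk' f hmul, ?_, hf, ?_⟩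
  · intro g₁
    obtain ⟨σ, hσ, hon₁⟩ := sur F v 𝔓 h𝔓 L₁ fd₁ nm₁ g₁ g₁.2
    obtain ⟨g, hg, hon⟩ := g7 L nm σ hσ
    refine ⟨⟨g, hg⟩, ?_⟩
    apply uniq
    intro x
    rw [key ⟨g, hg⟩ g₁ σ hon hon₁ x]
    exact hf _ _
  · intro g g₁ σ hon hon₁
    apply uniq
    intro x
    rw [key g g₁ σ hon hon₁ x]
    exact hf _ _

/-- the comparison of the sums -/
theorem up (fin : ST_FIN) (grp : ST_GRP) (sur : ST_SUR) (rep : ST_REP) (vres : ST_VRES)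
    {k : Type} [Field k] [CharZero k] {n : ℕ}
    (ρ : Gal F →* Matrix.GeneralLinearGroup (Fin n) k) (v : Pl F) (𝔓 : Ideal (Zb F))
    (h𝔓 : Over v 𝔓) (L₁ L : IntermediateField F (AlgebraicClosure F)) (hle : L₁ ≤ L)
    (fd₁ : FiniteDimensional F L₁) (nm₁ : Normal F L₁) (fd : FiniteDimensional F L)
    (nm : Normal F L)
    (htr₁ : ∀ σ : Gal F, Wild 𝔓 σ → (∀ x ∈ L₁, σ x = x) → ρ σ = 1)
    (htr : ∀ σ : Gal F, Wild 𝔓 σ → (∀ x ∈ L, σ x = x) → ρ σ = 1) :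
    ∃ f : ℕ, ramCard L 𝔓 0 = f * ramCard L₁ 𝔓 0 ∧
      ∑ᶠ i : ℕ, ramCard L 𝔓 (i + 1) * codim ρ {σ | Wild 𝔓 σ ∧ Ram L 𝔓 (i + 1) σ} =
      f * ∑ᶠ i : ℕ, ramCard L₁ 𝔓 (i + 1) * codim ρ {σ | Wild 𝔓 σ ∧ Ram L₁ 𝔓 (i + 1) σ} := by
  obtain ⟨-, -, g3, -, -, -, g7, g8⟩ := grp F v 𝔓 h𝔓
  obtain ⟨M₁⟩ := fin F v 𝔓 h𝔓 L₁ fd₁ nm₁
  obtain ⟨M⟩ := fin F v 𝔓 h𝔓 L fd nm
  obtain ⟨f, hf0, hw, hcard⟩ := vres F v 𝔓 h𝔓 L₁ L hle fd M₁ M
  obtain ⟨res, hsur, hres, hres'⟩ := exists_res grp sur v 𝔓 h𝔓 L₁ L hle fd₁ nm₁ fd nm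
  obtain ⟨hc₁, r₁, a₁, b₁, c₁, d₁⟩ := rep F v 𝔓 h𝔓 L₁ fd₁ nm₁ M₁ k n ρ htr₁
  obtain ⟨hc, r, a, b, c, d⟩ := rep F v 𝔓 h𝔓 L fd nm M k n ρ htr
  have fin1 : Finite (L₁ ≃ₐ[F] L₁) := inferInstance
  have fin2 : Finite (L ≃ₐ[F] L) := inferInstance
  let _ : Fintype (Inr L₁ 𝔓) := Fintype.ofFinite _
  let _ : Fintype (Inr L 𝔓) := Fintype.ofFinite _
  have hker : Nat.card res.ker = f := by
    have h1 : Nat.card (Inr L 𝔓) = Nat.card res.ker * Nat.card (Inr L₁ 𝔓) := by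
      rw [← res.ker.card_mul_index, Subgroup.index_ker, MonoidHom.range_eq_top.2 hsur,
        Subgroup.card_top]
    rw [hcard] at h1
    exact (Nat.eq_of_mul_eq_mul_right Nat.card_pos h1).symm
  refine ⟨f, ?_, ?_⟩
  · rw [hc 0, hc₁ 0, rk_zero, rk_zero, Subgroup.card_top, Subgroup.card_top, hcard]
  -- elements of the first ramification group
  have hres1 : ∀ (g : Inr L 𝔓) (hg : g ∈ Rk M.base 1), ∃ hg₁ : res g ∈ Rk M₁.base 1,
      r ⟨g, hg⟩ = r₁ ⟨res g, hg₁⟩ := by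
    intro g hg
    obtain ⟨σ, hσ, hon⟩ := b ⟨g, hg⟩
    obtain ⟨g₁, hon₁⟩ := c₁ σ hσ
    have h1 : res g = (g₁ : Inr L₁ 𝔓) := hres' g g₁ σ hon hon₁
    have h2 : res g ∈ Rk M₁.base 1 := h1 ▸ g₁.2
    refine ⟨h2, ?_⟩
    rw [a σ ⟨g, hg⟩ hσ hon]
    have h3 : (⟨res g, h2⟩ : Rk M₁.base 1) = g₁ := Subtype.ext h1
    rw [h3, a₁ σ g₁ hσ hon₁]
  let C₁ : Inr L₁ 𝔓 → k := fun g => if hg : g ∈ Rk M₁.base 1 then (n : k) -
      ((r₁ ⟨g, hg⟩ : Matrix.GeneralLinearGroup (Fin n) k) : Matrix (Fin n) (Fin n) k).trace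
      else 0
  have hC₁ : ∀ (g : Inr L₁ 𝔓) (hg : g ∈ Rk M₁.base 1), C₁ g = n -
      ((r₁ ⟨g, hg⟩ : Matrix.GeneralLinearGroup (Fin n) k) :
        Matrix (Fin n) (Fin n) k).trace := by
    intro g hg
    exact dif_pos hg
  have hC : ∀ (g : Inr L 𝔓) (hg : g ∈ Rk M.base 1), C₁ (res g) = n -
      ((r ⟨g, hg⟩ : Matrix.GeneralLinearGroup (Fin n) k) :
        Matrix (Fin n) (Fin n) k).trace := by
    intro g hg
    obtain ⟨hg₁, h⟩ := hres1 g hg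
    rw [hC₁ (res g) hg₁, h]
  have hone : C₁ 1 = 0 := by
    rw [hC₁ 1 (Rk M₁.base 1).one_mem]
    have h4 : (⟨1, (Rk M₁.base 1).one_mem⟩ : Rk M₁.base 1) = 1 := rfl
    rw [h4, map_one]
    simp
  have s₁ := sumF M₁.base r₁ (fun i => fixd ρ {σ | Wild 𝔓 σ ∧ Ram L₁ 𝔓 (i + 1) σ}) d₁ C₁ hC₁
  have s := sumF M.base r (fun i => fixd ρ {σ | Wild 𝔓 σ ∧ Ram L 𝔓 (i + 1) σ}) d
    (fun g => C₁ (res g)) hC
  have hsum : ∑ g : Inr L 𝔓, C₁ (res g) * ((dI M.w M.π g - 1 : ℤ) : k) =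
      f * ∑ g : Inr L₁ 𝔓, C₁ g * ((dI M₁.w M₁.π g - 1 : ℤ) : k) := by
    rw [← Finset.sum_fiberwise Finset.univ (fun g => res g), Finset.mul_sum]
    refine Finset.sum_congr rfl fun g₁ _ => ?_
    by_cases hg : g₁ = 1
    · subst hg
      rw [hone, zero_mul, mul_zero]
      refine Finset.sum_eq_zero fun g hg => ?_
      rw [(Finset.mem_filter.1 hg).2, hone, zero_mul]
    · have h1 := sum_fibre M.base M₁.base (IntermediateField.inclusion hle : L₁ →+* L) res hres f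
        hw hker hsur g₁ hg (Finset.univ.filter (fun g : Inr L 𝔓 => res g = g₁))
        (fun g => by simp)
      have h2 : ∑ g ∈ Finset.univ.filter (fun g : Inr L 𝔓 => res g = g₁),
          C₁ (res g) * ((dI M.w M.π g - 1 : ℤ) : k) =
          C₁ g₁ * ((∑ g ∈ Finset.univ.filter (fun g : Inr L 𝔓 => res g = g₁),
            (dI M.w M.π g - 1) : ℤ) : k) := by
        rw [Int.cast_sum, Finset.mul_sum]
        refine Finset.sum_congr rfl fun g hg => ?_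
        rw [(Finset.mem_filter.1 hg).2]
      rw [h2, h1]
      push_cast
      ring
  have e₁ : ∀ i : ℕ, ramCard L₁ 𝔓 (i + 1) * codim ρ {σ | Wild 𝔓 σ ∧ Ram L₁ 𝔓 (i + 1) σ} =
      Nat.card (Rk M₁.base (i + 1)) *
        (n - Module.finrank k (fixd ρ {σ | Wild 𝔓 σ ∧ Ram L₁ 𝔓 (i + 1) σ})) := by
    intro i
    rw [hc₁]
    rfl
  have e : ∀ i : ℕ, ramCard L 𝔓 (i + 1) * codim ρ {σ | Wild 𝔓 σ ∧ Ram L 𝔓 (i + 1) σ} =
      Nat.card (Rk M.base (i + 1)) *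
        (n - Module.finrank k (fixd ρ {σ | Wild 𝔓 σ ∧ Ram L 𝔓 (i + 1) σ})) := by
    intro i
    rw [hc]
    rfl
  rw [finsum_congr e₁, finsum_congr e]
  have hcast : Function.Injective (fun z : ℕ => (z : k)) := Nat.cast_injective
  apply hcast
  show ((∑ᶠ i : ℕ, Nat.card (Rk M.base (i + 1)) *
        (n - Module.finrank k (fixd ρ {σ | Wild 𝔓 σ ∧ Ram L 𝔓 (i + 1) σ})) : ℕ) : k) =
    ((f * ∑ᶠ i : ℕ, Nat.card (Rk M₁.base (i + 1)) *
        (n - Module.finrank k (fixd ρ {σ | Wild 𝔓 σ ∧ Ram L₁ 𝔓 (i + 1) σ})) : ℕ) : k)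
  rw [Nat.cast_mul, s, s₁, hsum]

end up

section conj

variable {F : Type} [Field F] [NumberField F]

open BKS (Tr img)

theorem vec_mul' {k : Type} [Field k] {n : ℕ} (ρ : Gal F →* Matrix.GeneralLinearGroup (Fin n) k)
    (σ τ : Gal F) (x : Fin n → k) : vec ρ (σ * τ) x = vec ρ σ (vec ρ τ x) := by
  unfold vec
  rw [map_mul, Units.val_mul, Matrix.mulVec_mulVec]

theorem vec_one' {k : Type} [Field k] {n : ℕ} (ρ : Gal F →* Matrix.GeneralLinearGroup (Fin n) k)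
    (x : Fin n → k) : vec ρ 1 x = x := by
  unfold vec
  rw [map_one, Units.val_one, Matrix.one_mulVec]

/-- the action of `τ` as a linear equivalence -/
noncomputable def vE {k : Type} [Field k] {n : ℕ}
    (ρ : Gal F →* Matrix.GeneralLinearGroup (Fin n) k) (τ : Gal F) :
    (Fin n → k) ≃ₗ[k] (Fin n → k) where
  toFun := vec ρ τ
  map_add' x y := Matrix.mulVec_add _ x y
  map_smul' a x := Matrix.mulVec_smul _ a x
  invFun := vec ρ τ⁻¹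
  left_inv x := by rw [← vec_mul', inv_mul_cancel, vec_one']
  right_inv x := by rw [← vec_mul', mul_inv_cancel, vec_one']

theorem codim_conj {k : Type} [Field k] {n : ℕ}
    (ρ : Gal F →* Matrix.GeneralLinearGroup (Fin n) k) (τ : Gal F) (S S₁ : Set (Gal F))
    (h : ∀ σ, σ ∈ S ↔ τ⁻¹ * σ * τ ∈ S₁) : codim ρ S = codim ρ S₁ := by
  have e : fixd ρ S = (fixd ρ S₁).map (vE ρ τ : (Fin n → k) →ₗ[k] (Fin n → k)) := by
    ext x
    rw [Submodule.mem_map]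
    constructor
    · intro hx
      refine ⟨vec ρ τ⁻¹ x, ?_, ?_⟩
      · intro σ₁ hσ₁
        have h1 : τ * σ₁ * τ⁻¹ ∈ S := by
          rw [h]
          have h2 : τ⁻¹ * (τ * σ₁ * τ⁻¹) * τ = σ₁ := by group
          rwa [h2]
        have h3 := hx _ h1
        have h4 : σ₁ * τ⁻¹ = τ⁻¹ * (τ * σ₁ * τ⁻¹) := by group
        rw [← vec_mul', h4, vec_mul', h3]
      · show vec ρ τ (vec ρ τ⁻¹ x) = x
        rw [← vec_mul', mul_inv_cancel, vec_one']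
    · rintro ⟨y, hy, rfl⟩ σ hσ
      show vec ρ σ (vec ρ τ y) = vec ρ τ y
      have h3 := hy _ ((h σ).1 hσ)
      have h4 : σ * τ = τ * (τ⁻¹ * σ * τ) := by group
      rw [← vec_mul', h4, vec_mul', h3]
  unfold codim
  rw [e, LinearEquiv.finrank_map_eq]

theorem congr_conj {𝔓₁ 𝔓 : Ideal (Zb F)} {τ σ : Gal F} (h : Tr τ 𝔓₁ 𝔓) (hσ : Congr 𝔓 1 σ) :
    Congr 𝔓₁ 1 (τ⁻¹ * σ * τ) := by
  intro x y hxy
  have h1 : ((img τ y : Zb F) : AlgebraicClosure F) = σ ((img τ x : Zb F) : AlgebraicClosure F) := by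
    show τ (y : AlgebraicClosure F) = σ (τ (x : AlgebraicClosure F))
    rw [hxy]
    exact τ.apply_symm_apply _
  have h2 := hσ _ _ h1
  refine (h (y - x ^ 1) (img τ y - img τ x ^ 1) ?_).2 h2
  show τ (y : AlgebraicClosure F) - (τ (x : AlgebraicClosure F)) ^ 1 =
    τ ((y : AlgebraicClosure F) - (x : AlgebraicClosure F) ^ 1)
  rw [map_sub, map_pow]

/-- the action of `τ` on the integers of `L` -/
noncomputable def TL (L : IntermediateField F (AlgebraicClosure F)) [Normal F L] (τ : Gal F) :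
    𝓞 L ≃+* 𝓞 L :=
  RingOfIntegers.mapRingEquiv (τ.restrictNormal L : L ≃ₐ[F] L).toRingEquiv

theorem TL_val (L : IntermediateField F (AlgebraicClosure F)) [Normal F L] (τ : Gal F) (x : 𝓞 L) :
    (((TL L τ x : 𝓞 L) : L) : AlgebraicClosure F) = τ ((x : L) : AlgebraicClosure F) :=
  AlgEquiv.restrictNormal_commutes τ L (x : L)

theorem mem_under_pow (L : IntermediateField F (AlgebraicClosure F)) [Normal F L] {τ : Gal F}
    {𝔓₁ 𝔓 : Ideal (Zb F)} (h : Tr τ 𝔓₁ 𝔓) (m : ℕ) (x : 𝓞 L) :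
    x ∈ under L 𝔓₁ ^ m ↔ TL L τ x ∈ under L 𝔓 ^ m := by
  have h1 : under L 𝔓₁ = (under L 𝔓).comap (TL L τ : 𝓞 L →+* 𝓞 L) := by
    ext z
    exact h (inc L z) (inc L (TL L τ z)) (TL_val L τ z)
  have h2 : ∀ I : Ideal (𝓞 L), I.comap (TL L τ : 𝓞 L →+* 𝓞 L) =
      I.map ((TL L τ).symm : 𝓞 L →+* 𝓞 L) := fun I =>
    (Ideal.map_comap_of_equiv (I := I) (TL L τ).symm).symm
  rw [h1, h2, ← Ideal.map_pow, ← h2]
  exact Iff.rfl

theorem ram_conj (L : IntermediateField F (AlgebraicClosure F)) (nm : Normal F L) {τ σ : Gal F}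
    {𝔓₁ 𝔓 : Ideal (Zb F)} (h : Tr τ 𝔓₁ 𝔓) {i : ℕ} (hσ : Ram L 𝔓 i σ) :
    Ram L 𝔓₁ i (τ⁻¹ * σ * τ) := by
  intro x y hxy
  rw [mem_under_pow L h, map_sub]
  apply hσ
  rw [TL_val, TL_val, hxy]
  exact τ.apply_symm_apply _

theorem wild_conj {τ σ : Gal F} {𝔓₁ 𝔓 : Ideal (Zb F)} (h : Tr τ 𝔓₁ 𝔓) (hσ : Wild 𝔓 σ) :
    Wild 𝔓₁ (τ⁻¹ * σ * τ) :=
  fun L fd nm => ram_conj L nm h (hσ L fd nm)

theorem conj_back {τ σ : Gal F} : (τ⁻¹)⁻¹ * (τ⁻¹ * σ * τ) * τ⁻¹ = σ := by group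

theorem ramCard_conj_le (L : IntermediateField F (AlgebraicClosure F))
    (fd : FiniteDimensional F L) (nm : Normal F L) {τ : Gal F}
    {𝔓₁ 𝔓 : Ideal (Zb F)} (h : Tr τ 𝔓₁ 𝔓) (i : ℕ) : ramCard L 𝔓 i ≤ ramCard L 𝔓₁ i := by
  have : Finite (L ≃ₐ[F] L) := inferInstance
  let t : L ≃ₐ[F] L := τ.restrictNormal L
  refine Nat.card_le_card_of_injective
    (fun g => ⟨t⁻¹ * (g : L ≃ₐ[F] L) * t, ?_⟩) ?_
  · intro x y hxy
    rw [mem_under_pow L h, map_sub]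
    apply g.2
    have h1 : ∀ z : 𝓞 L, ((TL L τ z : 𝓞 L) : L) = t (z : L) := fun z => rfl
    rw [h1, h1, hxy]
    exact t.apply_symm_apply _
  · intro g g' hgg'
    have h1 := congrArg Subtype.val hgg'
    simp only at h1
    apply Subtype.ext
    exact mul_left_cancel (mul_right_cancel h1)

theorem ramCard_conj (L : IntermediateField F (AlgebraicClosure F))
    (fd : FiniteDimensional F L) (nm : Normal F L) {τ : Gal F}
    {𝔓₁ 𝔓 : Ideal (Zb F)} (h : Tr τ 𝔓₁ 𝔓) (i : ℕ) : ramCard L 𝔓 i = ramCard L 𝔓₁ i :=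
  le_antisymm (ramCard_conj_le L fd nm h i) (ramCard_conj_le L fd nm h.inv i)

end conj

theorem st_CDL (fin : ST_FIN) (grp : PQ.ST_GRP) (sur : ST_SUR) (rep : ST_REP) (vres : ST_VRES)
    (ovp : REC.ST_OVP) : ST_CDL := by
  intro F _ _ k _ _ n ρ v a hcond 𝔓 h𝔓
  obtain ⟨𝔓₁, L₁, h𝔓₁, fd₁, nm₁, htr₁, hform⟩ := hcond
  obtain ⟨τ, hτ⟩ := BKS.trans_prime ovp v 𝔓₁ 𝔓 h𝔓₁ h𝔓
  have htr : ∀ σ : Gal F, Wild 𝔓 σ → (∀ x ∈ L₁, σ x = x) → ρ σ = 1 := by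
    intro σ hσ hfix
    have h1 : ρ (τ⁻¹ * σ * τ) = 1 := by
      apply htr₁ _ (wild_conj hτ hσ)
      intro x hx
      have h2 : τ x ∈ L₁ := by
        have h3 := AlgEquiv.restrictNormal_commutes τ L₁ ⟨x, hx⟩
        have h4 : τ x = ((τ.restrictNormal L₁ ⟨x, hx⟩ : L₁) : AlgebraicClosure F) := h3.symm
        rw [h4]
        exact Subtype.prop _
      show τ⁻¹ (σ (τ x)) = x
      rw [hfix _ h2]
      exact τ.symm_apply_apply x
    rw [map_mul, map_mul, map_inv] at h1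
    have h2 : ρ σ = ρ τ * ((ρ τ)⁻¹ * ρ σ * ρ τ) * (ρ τ)⁻¹ := by group
    rw [h2, h1, mul_one, mul_inv_cancel]
  have hform' : ramCard L₁ 𝔓 0 * a = ramCard L₁ 𝔓 0 * codim ρ {σ | Congr 𝔓 1 σ} +
      ∑ᶠ i : ℕ, ramCard L₁ 𝔓 (i + 1) * codim ρ {σ | Wild 𝔓 σ ∧ Ram L₁ 𝔓 (i + 1) σ} := by
    have e1 : codim ρ {σ | Congr 𝔓 1 σ} = codim ρ {σ | Congr 𝔓₁ 1 σ} := by
      apply codim_conj ρ τ
      intro σ
      refine ⟨fun h => congr_conj hτ h, fun h => ?_⟩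
      have h1 := congr_conj hτ.inv h
      rwa [conj_back] at h1
    have e2 : ∀ i : ℕ, codim ρ {σ | Wild 𝔓 σ ∧ Ram L₁ 𝔓 (i + 1) σ} =
        codim ρ {σ | Wild 𝔓₁ σ ∧ Ram L₁ 𝔓₁ (i + 1) σ} := by
      intro i
      apply codim_conj ρ τ
      intro σ
      refine ⟨fun h => ⟨wild_conj hτ h.1, ram_conj L₁ nm₁ hτ h.2⟩, fun h => ?_⟩
      have h1 := wild_conj hτ.inv h.1
      have h2 := ram_conj L₁ nm₁ hτ.inv h.2
      rw [conj_back] at h1 h2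
      exact ⟨h1, h2⟩
    have e3 : ∀ i, ramCard L₁ 𝔓 i = ramCard L₁ 𝔓₁ i := ramCard_conj L₁ fd₁ nm₁ hτ
    rw [e1, e3 0, hform]
    congr 1
    apply finsum_congr
    intro i
    rw [e2, e3]
  refine ⟨L₁, fd₁, fun L hle fd nm => ?_⟩
  have htrL : ∀ σ : Gal F, Wild 𝔓 σ → (∀ x ∈ L, σ x = x) → ρ σ = 1 :=
    fun σ hσ h => htr σ hσ (fun x hx => h x (hle hx))
  refine ⟨htrL, ?_⟩
  obtain ⟨f, h0, hs⟩ := up fin grp sur rep vres ρ v 𝔓 h𝔓 L₁ L hle fd₁ nm₁ fd nm htr htrL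
  rw [h0, hs, mul_assoc, hform', mul_add, mul_assoc]

end PQ89
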