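import Pool.Agent.Helper89.PQ.DSP
import Pool.Agent.Helper70.PQ.DYAD

/-!
# CDL, part 1: displacements in a tower and the sum over the ramification groups
-/

set_option autoImplicit false

open scoped Classical

namespace PQ89

open PQ BKA Pool.Agent.Helper13.Swan

section

variable {Ω P : Type} [Field Ω] [Group P] [MulSemiringAction P Ω]
  {w : Valuation Ω (WithZero (Multiplicative ℤ))} {π : Ω} [Fintype P] [FaithfulSMul P Ω]

/-- Displacement of integral elements of the fixed field of `Q`, for any uniformiser `ϖ` of the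
fixed field. -/
theorem val_smul_sub_le_gen (hB : Base P w π) (Q : Subgroup P) (g : P) {ϖ : Ω} (hϖf : Fx Q ϖ)
    (hwϖ : w ϖ = ex (Nat.card Q)) {c : Ω} (hc : Fx Q c) (hc1 : w c ≤ 1) :
    w (g • c - c) ≤ w (g • ϖ - ϖ) := by
  have hϖ0 : ϖ ≠ 0 := by
    intro h
    rw [h, map_zero] at hwϖ
    exact ex_ne_zero _ hwϖ.symm
  have hQ : 1 ≤ Nat.card Q := Nat.card_pos
  apply le_of_forall_le_max
  intro N
  induction N generalizing c with
  | zero =>
    apply le_max_of_le_right
    simp only [Nat.cast_zero, ex_zero]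
    apply w.map_sub_le _ hc1
    rw [hB.inv]; exact hc1
  | succ N ih =>
    obtain ⟨a, ha, hca⟩ := hB.res c hc1
    have hd : Fx Q ((c - a) / ϖ) := (hc.sub (fun τ _ => ha τ)).div hϖf
    have hd1 : w ((c - a) / ϖ) ≤ 1 := by
      rw [map_div₀, hwϖ]
      apply div_le_one_of_le₀ _ zero_le
      by_cases h0 : c - a = 0
      · rw [h0, map_zero]; exact zero_le
      · obtain ⟨m, hm⟩ := hB.val_fixed Q (hc.sub (fun τ _ => ha τ)) h0
        rw [hm] at hca ⊢
        rw [← ex_zero, ex_lt_ex] at hca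
        rw [ex_le_ex]
        have : 1 ≤ m := by
          by_contra hcon
          push Not at hcon
          have h3 : (0 : ℤ) < Nat.card Q := by exact_mod_cast hQ
          nlinarith
        nlinarith
    have h2 := ih hd hd1
    set d := (c - a) / ϖ with hd_def
    have hc_eq : c = a + ϖ * d := by
      rw [hd_def]; field_simp; ring
    have e1 : g • c - c = (g • ϖ - ϖ) * (g • d) + ϖ * (g • d - d) := by
      rw [hc_eq, smul_add, smul_mul', ha g]
      ring
    rw [e1]
    apply w.map_add_le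
    · apply le_max_of_le_left
      rw [map_mul, hB.inv]
      exact mul_le_of_le_one_right zero_le hd1
    · rw [map_mul, hwϖ]
      have h3 : ex (Nat.card Q) * max (w (g • ϖ - ϖ)) (ex N) ≤
          max (w (g • ϖ - ϖ)) (ex ((N + 1 : ℕ) : ℤ)) := by
        rcases le_total (w (g • ϖ - ϖ)) (ex N) with h | h
        · rw [max_eq_right h]
          apply le_max_of_le_right
          rw [← ex_add, ex_le_ex]
          push_cast
          omega
        · rw [max_eq_left h]
          apply le_max_of_le_left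
          apply mul_le_of_le_one_left zero_le
          rw [← ex_zero, ex_le_ex]
          positivity
      exact (mul_le_mul_right h2 _).trans h3

theorem dI_ge_one (hB : Base P w π) (g : P) (hg : g ≠ 1) : 1 ≤ dI w π g := by
  have h1 := hB.val_pi_sub_le g
  rwa [ex_dI hB g hg, ex_le_ex] at h1

theorem dI_eq_one (hB : Base P w π) (g : P) (hg : g ∉ Rk hB 1) : dI w π g = 1 := by
  have hne : g ≠ 1 := fun h => hg (h ▸ (Rk hB 1).one_mem)
  have h1 := dI_ge_one hB g hne
  have h2 : ¬ ((1 : ℕ) : ℤ) + 1 ≤ dI w π g := by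
    intro h3
    apply hg
    rw [mem_Rk, ex_dI hB g hne, ex_le_ex]
    exact h3
  push_cast at h2
  omega

end

section tower

variable {Ω P : Type} [Field Ω] [Group P] [MulSemiringAction P Ω] [Fintype P] [FaithfulSMul P Ω]
  {w : Valuation Ω (WithZero (Multiplicative ℤ))} {π : Ω}
  {Ω₁ P₁ : Type} [Field Ω₁] [Group P₁] [MulSemiringAction P₁ Ω₁] [Fintype P₁]
  [FaithfulSMul P₁ Ω₁] {w₁ : Valuation Ω₁ (WithZero (Multiplicative ℤ))} {π₁ : Ω₁}

/-- the displacements in a tower -/
theorem dI_tower (hB : Base P w π) (hB₁ : Base P₁ w₁ π₁) (φ : Ω₁ →+* Ω) (res : P →* P₁)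
    (hres : ∀ g x, φ (res g • x) = g • φ x) (f : ℕ) (hw : ∀ x, w (φ x) = w₁ x ^ f)
    (hf : Nat.card res.ker = f) (g : P) (hg : res g ≠ 1) :
    ∑ h : res.ker, dI w π (g * h) = f * dI w₁ π₁ (res g) := by
  have hg' : g ∉ res.ker := fun h => hg (MonoidHom.mem_ker.1 h)
  have h1 := (st_DSP Ω P w π hB).2.2.2.2.2 res.ker g hg'
  have hfix : ∀ x, Fx res.ker (φ x) := by
    intro x τ hτ
    rw [← hres, MonoidHom.mem_ker.1 hτ, one_smul]
  have hwπ : w (φ π₁) = ex (Nat.card res.ker) := by
    rw [hw, hB₁.unif, ex_pow, hf, mul_one]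
  have hle1 : ∀ m : ℕ, ex (m : ℤ) ≤ 1 := by
    intro m
    rw [← ex_zero, ex_le_ex]
    positivity
  have h2 : w (g • φ π₁ - φ π₁) = ex (f * dI w₁ π₁ (res g)) := by
    rw [← hres, ← map_sub, hw, ex_dI hB₁ _ hg, ex_pow]
  have h3 : w (g • φ π₁ - φ π₁) ≤ w (g • nm res.ker π - nm res.ker π) :=
    hB.val_smul_sub_le res.ker g (hfix π₁) (by rw [hwπ]; exact hle1 _)
  have h4 : w (g • nm res.ker π - nm res.ker π) ≤ w (g • φ π₁ - φ π₁) :=
    val_smul_sub_le_gen hB res.ker g (hfix π₁) hwπ (nm_fixed _ _)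
      (by rw [hB.val_nm_pi]; exact hle1 _)
  have h5 := le_antisymm h3 h4
  rw [h2, h1, ex_inj] at h5
  rw [h5]
  refine Finset.sum_congr (Finset.ext fun x => ?_) (fun _ _ => rfl)
  simp only [Finset.mem_univ]

/-- the sum of the displacements over the fibres -/
theorem sum_fibre (hB : Base P w π) (hB₁ : Base P₁ w₁ π₁) (φ : Ω₁ →+* Ω) (res : P →* P₁)
    (hres : ∀ g x, φ (res g • x) = g • φ x) (f : ℕ) (hw : ∀ x, w (φ x) = w₁ x ^ f)
    (hf : Nat.card res.ker = f) (hsur : Function.Surjective res) (g₁ : P₁) (hg : g₁ ≠ 1)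
    (s : Finset P) (hs : ∀ g, g ∈ s ↔ res g = g₁) :
    ∑ g ∈ s, (dI w π g - 1) = f * (dI w₁ π₁ g₁ - 1) := by
  obtain ⟨g₀, rfl⟩ := hsur g₁
  have h1 : ∑ g ∈ s, (dI w π g - 1) =
      ∑ h : res.ker, (dI w π (g₀ * h) - 1) := by
    refine Finset.sum_bij' (fun g hg => (⟨g₀⁻¹ * g, ?_⟩ : res.ker)) (fun h _ => g₀ * h) ?_ ?_ ?_ ?_ ?_
    · rw [MonoidHom.mem_ker, map_mul, map_inv, (hs g).1 hg, inv_mul_cancel]
    · intro g hg
      exact Finset.mem_univ _
    · intro h _
      rw [hs, map_mul, MonoidHom.mem_ker.1 h.2, mul_one]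
    · intro g hg
      exact mul_inv_cancel_left g₀ g
    · intro h _
      exact Subtype.ext (inv_mul_cancel_left g₀ (h : P))
    · intro g hg
      simp only [mul_inv_cancel_left]
  rw [h1, Finset.sum_sub_distrib, dI_tower hB hB₁ φ res hres f hw hf g₀ hg, Finset.sum_const,
    Finset.card_univ, ← Nat.card_eq_fintype_card, hf]
  simp
  ring

end tower

section sum

variable {Ω P : Type} [Field Ω] [Group P] [MulSemiringAction P Ω] [Fintype P] [FaithfulSMul P Ω]
  {w : Valuation Ω (WithZero (Multiplicative ℤ))} {π : Ω}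

/-- the sum over the ramification groups as a sum over the group -/
theorem sumF (hB : Base P w π) {k : Type} [Field k] [CharZero k] {n : ℕ}
    (r : Rk hB 1 →* Matrix.GeneralLinearGroup (Fin n) k) (W : ℕ → Submodule k (Fin n → k))
    (hW : ∀ i x, x ∈ W i ↔ ∀ g : Rk hB 1, (g : P) ∈ Rk hB (i + 1) → vec r g x = x)
    (c : P → k) (hc : ∀ (g : P) (hg : g ∈ Rk hB 1), c g = n -
      ((r ⟨g, hg⟩ : Matrix.GeneralLinearGroup (Fin n) k) : Matrix (Fin n) (Fin n) k).trace) :
    ((∑ᶠ i : ℕ, Nat.card (Rk hB (i + 1)) * (n - Module.finrank k (W i)) : ℕ) : k) =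
      ∑ g : P, c g * ((dI w π g - 1 : ℤ) : k) := by
  obtain ⟨B, hbot⟩ := hB.exists_Rk_bot
  have hBi : ∀ i, B ≤ i → Rk hB i = ⊥ := fun i hi => le_bot_iff.1 (hbot ▸ Rk_antitone hB hi)
  let r' : Rk hB 1 →* ((Fin n → k) →ₗ[k] (Fin n → k)) :=
    ((Matrix.toLinAlgEquiv' : Matrix (Fin n) (Fin n) k ≃ₐ[k] _).toAlgHom :
      Matrix (Fin n) (Fin n) k →* ((Fin n → k) →ₗ[k] (Fin n → k))).comp
      ((Units.coeHom _).comp r)
  have hr' : ∀ g x, r' g x = vec r g x := fun g x => rfl
  have htr : ∀ g, LinearMap.trace k (Fin n → k) (r' g) =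
      ((r g : Matrix.GeneralLinearGroup (Fin n) k) : Matrix (Fin n) (Fin n) k).trace := by
    intro g
    exact Matrix.trace_toLin'_eq _
  have hfr : Module.finrank k (Fin n → k) = n := by simp
  have hle : ∀ i, Module.finrank k (W i) ≤ n := fun i => (Submodule.finrank_le (W i)).trans hfr.le
  rw [finsum_eq_sum_of_support_subset (s := Finset.range B)]
  · rw [Nat.cast_sum]
    have hterm : ∀ i : ℕ, ((Nat.card (Rk hB (i + 1)) * (n - Module.finrank k (W i)) : ℕ) : k) =
        ∑ g : P, if g ∈ Rk hB (i + 1) then c g else 0 := by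
      intro i
      have hle1 : Rk hB (i + 1) ≤ Rk hB 1 := Rk_antitone hB (by omega)
      have h1 := dyad_avg r' ((Rk hB (i + 1)).subgroupOf (Rk hB 1)) (W i) (by
        intro x
        rw [hW]
        exact ⟨fun h g hg => h g (Subgroup.mem_subgroupOf.1 hg),
          fun h g hg => h g (Subgroup.mem_subgroupOf.2 hg)⟩)
      have hcard : Nat.card ((Rk hB (i + 1)).subgroupOf (Rk hB 1)) = Nat.card (Rk hB (i + 1)) :=
        Nat.card_congr (Subgroup.subgroupOfEquivOfLe hle1).toEquiv
      have h2 : ∑ g : P, (if g ∈ Rk hB (i + 1) then c g else 0) =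
          ∑ g : (Rk hB (i + 1)).subgroupOf (Rk hB 1),
            ((n : k) - LinearMap.trace k (Fin n → k) (r' g)) := by
        rw [← Finset.sum_filter, Finset.sum_subtype (Finset.univ.filter (fun g => g ∈ Rk hB (i + 1)))
          (p := fun g => g ∈ Rk hB (i + 1)) (fun g => by simp)]
        refine (Fintype.sum_equiv (Subgroup.subgroupOfEquivOfLe hle1).toEquiv _ _ ?_).symm
        intro g
        rw [htr]
        exact (hc ((g : Rk hB 1) : P) (g : Rk hB 1).2).symm
      rw [h2, Finset.sum_sub_distrib, h1, Finset.sum_const, Finset.card_univ,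
        ← Nat.card_eq_fintype_card, nsmul_eq_mul, hcard, Nat.cast_mul, Nat.cast_sub (hle i)]
      ring
    rw [Finset.sum_congr rfl (fun i _ => hterm i), Finset.sum_comm]
    refine Finset.sum_congr rfl fun g _ => ?_
    by_cases hg : g = 1
    · subst hg
      have h3 : c 1 = 0 := by
        rw [hc 1 (Rk hB 1).one_mem]
        have h4 : (⟨1, (Rk hB 1).one_mem⟩ : Rk hB 1) = 1 := rfl
        rw [h4, map_one]
        simp
      simp [h3]
    · rw [← Finset.sum_filter, Finset.sum_const, nsmul_eq_mul, mul_comm]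
      congr 1
      have h2 : ∀ i : ℕ, g ∈ Rk hB i ↔ (i : ℤ) + 1 ≤ dI w π g := by
        intro i
        rw [mem_Rk, ex_dI hB g hg, ex_le_ex]
      have h3 : dI w π g ≤ B := by
        by_contra hcon
        have h4 : g ∈ Rk hB B := (h2 B).2 (by omega)
        rw [hbot, Subgroup.mem_bot] at h4
        exact hg h4
      have h4 := dI_ge_one hB g hg
      have h5 : (Finset.range B).filter (fun i => g ∈ Rk hB (i + 1)) =
          Finset.range (dI w π g - 1).toNat := by
        ext i
        rw [Finset.mem_filter, Finset.mem_range, Finset.mem_range, h2]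
        push_cast
        omega
      rw [h5, Finset.card_range, ← Int.cast_natCast, Int.toNat_of_nonneg (by omega)]
  · intro i hi
    rw [Finset.coe_range, Set.mem_Iio]
    by_contra hne
    apply hi
    have hbi := hBi (i + 1) (by omega)
    have htop : W i = ⊤ := by
      rw [eq_top_iff]
      intro x _
      rw [hW]
      intro g hg
      rw [hbi, Subgroup.mem_bot] at hg
      have h4 : g = 1 := Subtype.ext hg
      rw [h4, ← hr', map_one]
      rfl
    show Nat.card (Rk hB (i + 1)) * (n - Module.finrank k (W i)) = 0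
    rw [htop, finrank_top, hfr, Nat.sub_self, mul_zero]

end sum

end PQ89
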