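import Pool.Agent.Helper94.PQ.StmtsT
import Pool.Agent.Helper23.PQ.DISC1

/-!
# DSP: properties of the displacements
-/

set_option autoImplicit false

open scoped Classical

namespace PQ89

open PQ BKA Pool.Agent.Helper13.Swan

section

variable {Ω P : Type} [Field Ω] [Group P] [MulSemiringAction P Ω]
  {w : Valuation Ω (WithZero (Multiplicative ℤ))} {π : Ω}

/-- powers move the uniformiser at most as much -/
theorem pow_le (hB : Base P w π) (g : P) (n : ℕ) : w (g ^ n • π - π) ≤ w (g • π - π) := by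
  induction n with
  | zero => simp
  | succ n ih =>
    have e1 : g ^ (n + 1) • π - π = g • (g ^ n • π - π) + (g • π - π) := by
      rw [pow_succ', mul_smul, smul_sub]; ring
    rw [e1]
    refine w.map_add_le ?_ le_rfl
    rw [hB.inv]
    exact ih

theorem pow_eq (hB : Base P w π) (g : P) (u : ℕ) (hu : u.Coprime (orderOf g)) :
    w (g ^ u • π - π) = w (g • π - π) := by
  apply le_antisymm (pow_le hB g u)
  obtain ⟨m, hm⟩ := exists_pow_eq_self_of_coprime hu
  have h1 := pow_le hB (g ^ u) m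
  rw [hm] at h1
  exact h1

variable [Fintype P] [FaithfulSMul P Ω]

theorem conj_le (hB : Base P w π) (g h : P) :
    w ((h * g * h⁻¹) • π - π) ≤ w (g • π - π) := by
  have e1 : (h * g * h⁻¹) • π - π = h • (g • (h⁻¹ • π) - h⁻¹ • π) := by
    rw [smul_sub, mul_smul, mul_smul, smul_inv_smul]
  rw [e1, hB.inv]
  have h1 := hB.val_smul_sub_le (⊥ : Subgroup P) g (c := h⁻¹ • π) (by
    intro σ hσ
    rw [Subgroup.mem_bot] at hσ
    rw [hσ, one_smul]) (by rw [hB.inv, hB.unif, ← ex_zero, ex_le_ex]; norm_num)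
  have h2 : nm (⊥ : Subgroup P) π = π := by
    rw [nm_def, Fintype.prod_unique]
    have h3 : ((default : (⊥ : Subgroup P)) : P) = 1 := (Subgroup.mem_bot).1 (Subtype.prop _)
    rw [h3, one_smul]
  rw [h2] at h1
  exact h1

theorem conj_eq (hB : Base P w π) (g h : P) :
    w ((h * g * h⁻¹) • π - π) = w (g • π - π) := by
  apply le_antisymm (conj_le hB g h)
  have h1 := conj_le hB (h * g * h⁻¹) h⁻¹
  have e1 : h⁻¹ * (h * g * h⁻¹) * h⁻¹⁻¹ = g := by group
  rw [e1] at h1
  exact h1

theorem ex_dI (hB : Base P w π) (g : P) (hg : g ≠ 1) :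
    w (g • π - π) = ex (dI w π g) := by
  have hne : w (g • π - π) ≠ 0 := by
    rw [Valuation.ne_zero_iff, sub_ne_zero]
    intro h
    exact hg (hB.pi_free h)
  unfold dI ex
  rw [neg_neg, WithZero.exp_log hne]

end

theorem st_DSP : ST_DSP := by
  intro Ω P _ _ _ _ _ w π hB
  refine ⟨?_, ?_, ?_, ?_, ?_, ?_⟩
  · unfold dI
    rw [one_smul, sub_self, map_zero, WithZero.log_zero, neg_zero]
  · intro g hg
    exact ex_dI hB g hg
  · intro g i hg
    rw [mem_Rk, ex_dI hB g hg, ex_le_ex]
  · intro g h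
    unfold dI
    rw [conj_eq hB g h]
  · intro g u hu
    unfold dI
    rw [pow_eq hB g u hu]
  · intro H g hg
    rw [disc1 Ω P w π hB H g, ← prod_ex]
    apply Finset.prod_congr rfl
    intro h _
    apply ex_dI hB
    intro h1
    apply hg
    have h2 : g = ((h : P))⁻¹ := eq_inv_of_mul_eq_one_left h1
    rw [h2]
    exact H.inv_mem h.2

end PQ89
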